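import Pool.Agent.Helper8.Kak.Final

set_option autoImplicit false

/-!
# Kakutani equivalence is not classifiable by countable structures

Let `(X, μ)` be a standard nonatomic probability space and let `𝓔` be the space of ergodic elements
of `Aut(X, μ)` with the weak topology.  For every Borel action of `S_∞` on a standard Borel space
`Z` there is no Borel map `F : 𝓔 → Z` such that `S` and `T` are Kakutani equivalent if and only if
`F S` and `F T` are in the same `S_∞`-orbit.
-/

open MeasureTheory

namespace Pool.Agent.Results.MP_013a6c_an.NotClassifiable

open KakC

/-- Kakutani equivalence on the ergodic elements of `Aut(X, μ)` is not Borel reducible to the orbit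
equivalence relation of any Borel action of `S_∞` on a standard Borel space. -/
theorem result {X : Type*} [MeasurableSpace X] [StandardBorelSpace X] (μ : Measure X)
    [IsProbabilityMeasure μ] [NullSingletonClass μ]
    {Z : Type*} [MeasurableSpace Z] [StandardBorelSpace Z] [MulAction (Equiv.Perm ℕ) Z]
    (hZ : Measurable (fun p : Equiv.Perm ℕ × Z => p.1 • p.2)) :
    ¬ ∃ F : Erg μ → Z, Measurable F ∧
      ∀ S T : Erg μ, Kak S T ↔ ∃ σ : Equiv.Perm ℕ, σ • F S = F T :=
  KakC.main μ hZ

end Pool.Agent.Results.MP_013a6c_an.NotClassifiable
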